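import Mathlib
import Pool.Agent.Y667.ISO.Main
import Pool.Agent.Y667.RP.Disc
import Pool.Agent.W672.FK.Lowf
import Pool.Agent.W307.RT.Tors
import Pool.Agent.W261.RT.Iso

/-!
# Descent by 2-isogenies on the curves with full rational 2-torsion

All elliptic curves over `ℚ` with full rational 2-torsion, ordered by the naive height or by the
absolute value of the minimal discriminant. Each of them has three 2-isogenies and, for each of them,
a model `y² = x³ + a x² + b x` with the kernel generated by `(0, 0)`. For every `r ≥ 0` a positive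
proportion of the curves has a 2-Selmer group of order `2 ^ (r + 2)`, rank at most `r` and, for all the
three 2-isogenies, `s = f₁ + f₂ - 2 ≡ r` modulo 2, `2 ^ f₁` and `2 ^ f₂` being the orders of the Selmer
groups of the isogeny and of its dual. For `r = 0`: the rank is `0` and `s` is even for all the three
2-isogenies.
-/

namespace Pool.Agent.Results.MP_e2b281_nt.IsogenyParityFullTwoTorsion

open Finset Filter Topology

/-- the curve `y² = x³ + A x + B` over `ℚ` -/
def E (A B : ℤ) : WeierstrassCurve ℚ := ⟨0, 0, 0, (A : ℚ), (B : ℚ)⟩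

/-- the absolute value of the minimal discriminant of an elliptic curve `W` over `ℚ`: the smallest
absolute value of the discriminant of a Weierstrass equation `V` with integer coefficients which is
isomorphic to `W` over `ℚ` -/
noncomputable def minDisc (W : WeierstrassCurve ℚ) : ℕ :=
  sInf {n : ℕ | ∃ (V : WeierstrassCurve ℤ) (C : WeierstrassCurve.VariableChange ℚ),
    C • W = V.map (Int.castRingHom ℚ) ∧ n = V.Δ.natAbs}

/-- the naive height of `y² = x³ + A x + B` is at most `Z` -/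
def HeightLe (c : ℤ × ℤ) (Z : ℕ) : Prop := 4 * |c.1| ^ 3 ≤ Z ∧ 27 * c.2 ^ 2 ≤ Z

/-- the minimal discriminant of `y² = x³ + A x + B` is at most `Z` in absolute value -/
def DiscLe (c : ℤ × ℤ) (Z : ℕ) : Prop := minDisc (E c.1 c.2) ≤ Z

/-- The pairs `(A, B)` of integers such that `4 A³ + 27 B² ≠ 0`, there is no prime `p` with
`p⁴ ∣ A` and `p⁶ ∣ B`, `Z/2 x Z/2` embeds in the group of the rational points of
`y² = x³ + A x + B`, and the size (`HeightLe` or `DiscLe`) is at most `Z`. Every elliptic curve over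
`ℚ` with full rational 2-torsion is isomorphic to `E A B` for exactly one pair with the first three
properties. -/
def Fam (I : ℤ × ℤ → ℕ → Prop) (Z : ℕ) : Set (ℤ × ℤ) :=
  {c : ℤ × ℤ | 4 * c.1 ^ 3 + 27 * c.2 ^ 2 ≠ 0 ∧
    (∀ p : ℕ, p.Prime → ¬ ((p : ℤ) ^ 4 ∣ c.1 ∧ (p : ℤ) ^ 6 ∣ c.2)) ∧
    (∃ f : ZMod 2 × ZMod 2 →+ (E c.1 c.2).toAffine.Point, Function.Injective f) ∧ I c Z}

/-- the proportion of the curves of `S` among the curves of size at most `Z` -/
noncomputable def proportion (I : ℤ × ℤ → ℕ → Prop) (S : Set (ℤ × ℤ)) (Z : ℕ) : ℝ :=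
  ((Fam I Z ∩ S).ncard : ℝ) / (Fam I Z).ncard

lemma FamH_eq (H : ℕ) : Fam HeightLe H = (Pool.Agent.W307.RT.Cv 2 H : Set (ℤ × ℤ)) := by
  classical
  ext c
  have h : Pool.Agent.W307.RT.HasT 2 (Pool.Agent.W307.RT.Sh c.1 c.2) ↔
    ∃ f : ZMod 2 × ZMod 2 →+ (E c.1 c.2).toAffine.Point, Function.Injective f :=
    Pool.Agent.W307.RT.tors_iff
  unfold Fam HeightLe Pool.Agent.W307.RT.Cv
  rw [Set.mem_ofPred_eq, mem_coe, mem_filter, h, mem_product, mem_Icc, mem_Icc]
  constructor
  · rintro ⟨h1, h2, h3, h4, h5⟩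
    refine ⟨⟨?_, ?_⟩, h1, h4, h5, h2, h3⟩
    · rw [← abs_le]
      have h0 := abs_nonneg c.1
      rcases eq_or_lt_of_le h0 with h6 | h6
      · rw [← h6]; positivity
      · have : 1 ≤ |c.1| := h6
        nlinarith [mul_nonneg h0 h0, mul_self_nonneg (|c.1| - 1)]
    · rw [← abs_le]
      have h0 := abs_nonneg c.2
      rw [← sq_abs] at h5
      rcases eq_or_lt_of_le h0 with h6 | h6
      · rw [← h6]; positivity
      · have : 1 ≤ |c.2| := h6
        nlinarith
  · rintro ⟨-, h1, h4, h5, h2, h3⟩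
    exact ⟨h1, h2, h3, h4, h5⟩

lemma FamD_eq (D : ℕ) : Fam DiscLe D = (Pool.Agent.TH344.DS.Dv D : Set (ℤ × ℤ)) := by
  classical
  have h0 : Fam DiscLe D = Pool.Agent.W307.RS.DvS 2 D := by
    ext c
    have h : Pool.Agent.W307.RT.HasT 2 (Pool.Agent.W307.RT.Sh c.1 c.2) ↔
        ∃ f : ZMod 2 × ZMod 2 →+ (E c.1 c.2).toAffine.Point, Function.Injective f :=
      Pool.Agent.W307.RT.tors_iff
    unfold Fam Pool.Agent.W307.RS.DvS
    rw [Set.mem_ofPred_eq, Set.mem_ofPred_eq, h]
    exact Iff.rfl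
  rw [h0]
  unfold Pool.Agent.TH344.DS.Dv
  rw [dif_pos (Pool.Agent.TH344.DS.excd.1 D), Set.Finite.coe_toFinset]

/-- The number of these curves tends to infinity (ordering by height). -/
lemma tendstoH : Tendsto (fun Z : ℕ => (Fam HeightLe Z).ncard) atTop atTop := by
  simp only [FamH_eq, Set.ncard_coe_finset]
  exact Pool.Agent.W307.RT.tendsto_of_low Pool.Agent.W672.FK.lowf

/-- The number of these curves tends to infinity (ordering by the minimal discriminant). -/
lemma tendstoD : Tendsto (fun Z : ℕ => (Fam DiscLe Z).ncard) atTop atTop := by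
  have h1 := Pool.Agent.W307.RT.tendsto_of_low Pool.Agent.W672.FK.lowf
  have h2 : Tendsto (fun D : ℕ => (Pool.Agent.W307.RT.Cv 2 (D / 32)).card) atTop atTop :=
    h1.comp (Nat.tendsto_div_const_atTop (by norm_num))
  obtain ⟨hD1, hD2, hD3⟩ := Pool.Agent.TH344.DS.excd
  refine tendsto_atTop_mono (fun D => ?_) h2
  have h3 : (Pool.Agent.TH344.DS.Dv D : Set (ℤ × ℤ)) = Pool.Agent.W307.RS.DvS 2 D := by
    unfold Pool.Agent.TH344.DS.Dv
    rw [dif_pos (hD1 D), Set.Finite.coe_toFinset]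
  rw [FamD_eq, h3, ← Set.ncard_coe_finset]
  exact Set.ncard_le_ncard (Pool.Agent.W307.RS.Cv_sub Pool.Agent.W554.RS.mdl 2 (D / 32) D
    (Nat.mul_div_le D 32)) (hD1 D)

/-- The local condition at a completion `K` of `ℚ`: there is a point `(x, y)`, `y ≠ 0`, of
`y² = x³ + A x + B` over `K` such that `(x - e) * d e` is a square for all the integer roots `e` of
`x³ + A x + B`. (Every class of `E(K) / 2 E(K)` contains a point with `y ≠ 0`.) -/
def Local (K : Type) [Field K] (A B : ℤ) (d : ℤ → ℤ) : Prop :=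
  ∃ x y : K, y ≠ 0 ∧ y ^ 2 = x ^ 3 + A * x + B ∧
    ∀ e : ℤ, e ^ 3 + A * e + B = 0 → IsSquare ((x - e) * d e)

/-- The 2-Selmer group of `y² = x³ + A x + B`, a curve with three integer roots. As `E[2]` is the
group of the families of signs with product one indexed by the roots, an element of the 2-Selmer
group is a family of classes of nonzero rational numbers modulo squares indexed by the roots `e`,
given by squarefree integers `d e` (`d e = 1` if `e` is not a root), which over `ℝ` and over `ℚ_[p]`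
for all primes `p` is the family of the classes of `x - e` for a point of the curve. -/
def Sel2 (A B : ℤ) : Set (ℤ → ℤ) :=
  {d | (∀ e, Squarefree (d e)) ∧ (∀ e : ℤ, e ^ 3 + A * e + B ≠ 0 → d e = 1) ∧ Local ℝ A B d ∧
    ∀ (p : ℕ) [Fact p.Prime], Local ℚ_[p] A B d}

/-- the squarefree integers `b₁` dividing `b` such that the quartic
`N² = b₁ M⁴ + a M² e² + (b / b₁) e⁴` is everywhere locally solvable -/
def Solvable (a b : ℤ) : Set ℤ :=
  {b₁ : ℤ | Squarefree b₁ ∧ b₁ ∣ b ∧
    (∃ N M e : ℝ, (M ≠ 0 ∨ e ≠ 0) ∧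
      N ^ 2 = (b₁ : ℝ) * M ^ 4 + (a : ℝ) * M ^ 2 * e ^ 2 + ((b / b₁ : ℤ) : ℝ) * e ^ 4) ∧
    ∀ (p : ℕ) [Fact p.Prime], ∃ N M e : Padic p, (M ≠ 0 ∨ e ≠ 0) ∧
      N ^ 2 = (b₁ : Padic p) * M ^ 4 + (a : Padic p) * M ^ 2 * e ^ 2
        + ((b / b₁ : ℤ) : Padic p) * e ^ 4}

/-- the Mordell-Weil rank of `y² = x³ + a x² + b x` -/
noncomputable def rank (a b : ℤ) : ℕ :=
  Module.finrank ℤ (⟨0, (a : ℚ), 0, (b : ℚ), 0⟩ : WeierstrassCurve ℚ).toAffine.Point

/-- The curves with a 2-Selmer group of order `2 ^ (r + 2)` such that for every integer root `t` of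
`x³ + A x + B` the equation `y² = x³ + a x² + b x`, `a = 3 t`, `b = 3 t² + A`, of the curve (the root `t`
is moved to the origin) has rank at most `r` and `f₁ + f₂ ≡ r` modulo 2, where `2 ^ f₁` and `2 ^ f₂`
are the numbers of the classes `b₁` for `(a, b)` and for `(a', b') = (-2 a, a² - 4 b)`. -/
def IsogenyParity (r : ℕ) : Set (ℤ × ℤ) :=
  {c | (Sel2 c.1 c.2).Finite ∧ (Sel2 c.1 c.2).ncard = 2 ^ (r + 2) ∧
    ∀ t : ℤ, t ^ 3 + c.1 * t + c.2 = 0 → ∀ a b : ℤ, a = 3 * t → b = 3 * t ^ 2 + c.1 →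
      rank a b ≤ r ∧ ∃ f₁ f₂ : ℕ, (Solvable a b).ncard = 2 ^ f₁ ∧
        (Solvable (-2 * a) (a ^ 2 - 4 * b)).ncard = 2 ^ f₂ ∧ Even (r + f₁ + f₂)}

/-- **Theorem.** Order the elliptic curves over `ℚ` with full rational 2-torsion by the naive height
or by the absolute value of the minimal discriminant. For both orderings there are finitely many
curves of size at most `Z`, their number tends to infinity with `Z`, and for every `r ≥ 0` a
positive proportion of them (the lower density is positive) has a 2-Selmer group of order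
`2 ^ (r + 2)`, rank at most `r` and `s = f₁ + f₂ - 2 ≡ r` modulo 2 for all the three 2-isogenies. For
`r = 0` the rank is `0`, hence of the parity of `s`. -/
theorem result : ∀ I : ℤ × ℤ → ℕ → Prop, I = HeightLe ∨ I = DiscLe →
    (∀ Z : ℕ, (Fam I Z).Finite) ∧ Tendsto (fun Z : ℕ => (Fam I Z).ncard) atTop atTop ∧
    ∀ r : ℕ, ∃ δ : ℝ, 0 < δ ∧ ∀ᶠ Z : ℕ in atTop, δ ≤ proportion I (IsogenyParity r) Z := by
  classical
  have h0 : ∀ r : ℕ, ∃ c : ℝ, 0 < c ∧ ∃ H0 : ℕ, ∀ H : ℕ, H0 ≤ H →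
      c * ((Pool.Agent.W307.RT.Cv 2 H).card : ℝ) ≤
        (((Pool.Agent.W307.RT.Cv 2 H).filter (Pool.Agent.Y667.ISO.TIR r)).card : ℝ) := by
    intro r
    obtain ⟨c, hc, H0, h⟩ := Pool.Agent.Y667.ISO.curvesISO r
    refine ⟨c, hc, H0, fun H hH => (h H hH).trans
      (Nat.cast_le.2 (card_le_card fun k hk => ?_))⟩
    rw [mem_filter] at hk ⊢
    exact hk
  have hsub : ∀ (I : ℤ × ℤ → ℕ → Prop) (Z r : ℕ) (k : ℤ × ℤ), k ∈ Fam I Z →
      Pool.Agent.Y667.ISO.TIR r k → k ∈ Fam I Z ∩ IsogenyParity r := by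
    intro I Z r k hk hPk
    refine ⟨hk, hPk.1.1, hPk.1.2.1, fun t ht a b ha hb => ?_⟩
    subst ha hb
    refine ⟨?_, hPk.2 t ht⟩
    have hr := Pool.Agent.Y667.MT.rank_le hk.1 (Pool.Agent.W307.RT.tors_iff.2 hk.2.2.1)
      hPk.1.1 hPk.1.2.1
    obtain ⟨e⟩ := Pool.Agent.W261.RT.iso 0 (k.1 : ℚ) (k.2 : ℚ) (t : ℚ) 1 one_ne_zero
    have he := e.toIntLinearEquiv.finrank_eq
    have hW : (⟨0, (0 + 3 * (t : ℚ)) / 1 ^ 2, 0, ((k.1 : ℚ) + 2 * t * 0 + 3 * (t : ℚ) ^ 2) / 1 ^ 4,
        ((k.2 : ℚ) + t * k.1 + (t : ℚ) ^ 2 * 0 + (t : ℚ) ^ 3) / 1 ^ 6⟩ : WeierstrassCurve ℚ) =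
        ⟨0, ((3 * t : ℤ) : ℚ), 0, ((3 * t ^ 2 + k.1 : ℤ) : ℚ), 0⟩ := by
      have ht' : (t : ℚ) ^ 3 + k.1 * t + k.2 = 0 := by exact_mod_cast ht
      ext
      · rfl
      · push_cast; ring
      · rfl
      · push_cast; ring
      · push_cast
        linear_combination ht'
    rw [hW] at he
    unfold rank
    rw [← he]
    exact hr
  intro I hI
  rcases hI with rfl | rfl
  · refine ⟨fun Z => ?_, tendstoH, ?_⟩
    · rw [FamH_eq]
      exact finite_toSet _
    · intro r
      obtain ⟨c, hc, H0, h⟩ := h0 r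
      refine ⟨c, hc, ?_⟩
      filter_upwards [eventually_ge_atTop H0, tendstoH.eventually_ge_atTop 1] with H hH hH1
      unfold proportion
      rw [le_div_iff₀ (by exact_mod_cast hH1)]
      have e1 : (Fam HeightLe H).ncard = (Pool.Agent.W307.RT.Cv 2 H).card := by
        rw [FamH_eq, Set.ncard_coe_finset]
      rw [e1]
      refine (h H hH).trans (Nat.cast_le.2 ?_)
      rw [← Set.ncard_coe_finset]
      refine Set.ncard_le_ncard (fun k hk => ?_) (Set.Finite.inter_of_left (by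
        rw [FamH_eq]
        exact finite_toSet _) _)
      rw [mem_coe, mem_filter] at hk
      refine hsub _ _ r k ?_ hk.2
      rw [FamH_eq, mem_coe]
      exact hk.1
  · refine ⟨fun Z => ?_, tendstoD, ?_⟩
    · rw [FamD_eq]
      exact finite_toSet _
    · intro r
      obtain ⟨c, hc, H0, h⟩ := Pool.Agent.Y667.RP.disc_of_height (Pool.Agent.Y667.ISO.TIR r) (h0 r)
      refine ⟨c, hc, ?_⟩
      filter_upwards [eventually_ge_atTop H0, tendstoD.eventually_ge_atTop 1] with H hH hH1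
      unfold proportion
      rw [le_div_iff₀ (by exact_mod_cast hH1)]
      have e1 : (Fam DiscLe H).ncard = (Pool.Agent.TH344.DS.Dv H).card := by
        rw [FamD_eq, Set.ncard_coe_finset]
      rw [e1]
      refine (h H hH).trans (Nat.cast_le.2 ?_)
      rw [← Set.ncard_coe_finset]
      refine Set.ncard_le_ncard (fun k hk => ?_) (Set.Finite.inter_of_left (by
        rw [FamD_eq]
        exact finite_toSet _) _)
      rw [mem_coe, mem_filter] at hk
      refine hsub _ _ r k ?_ hk.2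
      rw [FamD_eq, mem_coe]
      exact hk.1

end Pool.Agent.Results.MP_e2b281_nt.IsogenyParityFullTwoTorsion
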